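import Pool.Agent.Y175.SC.Tetra

set_option autoImplicit false

/-!
# Property (SC) fails for tetrahedra in every large enough weakly Lindelöf type space

There is a complete probability space over which property (SC) fails for the family of the convex
hulls of at most four points (and for every larger family, in particular for `cwk(X)` and `wk(X)`)
in every Banach space `X` with a biorthogonal system `(e i, f i)`, `i ∈ Γ`, `#Γ ≥ ℵ₃`, such that
every functional is nonzero at only countably many `e i`. This covers all Hilbert spaces with an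
orthonormal family of `ℵ₃` vectors, all spaces `ℓ^p(Γ)`, `1 < p < ∞`, `#Γ ≥ ℵ₃`, and all Banach
spaces which contain one of them. The starting result `CwkFailsSC` is the family `cwk(X)` of the
Hilbert space of density `ℵ₃`; its proof is generalised.
-/

open MeasureTheory Set Topology Cardinal
open scoped ENNReal

namespace Pool.Agent.Results.MP_de1370_an.Tetrahedra

universe u

/-- A function with values in a real Banach space is scalarly measurable when its composition with
every continuous linear functional is measurable. -/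
def ScalarlyMeasurable {Ω : Type} {X : Type u} [MeasurableSpace Ω] [NormedAddCommGroup X]
    [NormedSpace ℝ X] (f : Ω → X) : Prop :=
  ∀ φ : StrongDual ℝ X, Measurable (fun t => φ (f t))

/-- A multi-function is scalarly measurable when it meets every open half-space in a measurable
set of parameters. -/
def ScalarlyMeasurableMulti {Ω : Type} {X : Type u} [MeasurableSpace Ω] [NormedAddCommGroup X]
    [NormedSpace ℝ X] (F : Ω → Set X) : Prop :=
  ∀ φ : StrongDual ℝ X, φ ≠ 0 → ∀ a : ℝ, MeasurableSet {t | (F t ∩ {x | a < φ x}).Nonempty}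

/-- Property (SC) of the family `𝒞` of subsets of `X` over the measurable space `Ω`: some set
selector `ψ` of `𝒞` makes `ψ ∘ F` scalarly measurable for every scalarly measurable multi-function
`F` with values in `𝒞`. -/
def PropertySC (Ω : Type) [MeasurableSpace Ω] {X : Type u} [NormedAddCommGroup X]
    [NormedSpace ℝ X] (𝒞 : Set (Set X)) : Prop :=
  ∃ ψ : Set X → X, (∀ C ∈ 𝒞, ψ C ∈ C) ∧ ∀ F : Ω → Set X, (∀ t, F t ∈ 𝒞) →
    ScalarlyMeasurableMulti F → ScalarlyMeasurable (fun t => ψ (F t))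

/-- The family of the nonempty convex weakly compact subsets. -/
def cwk (X : Type u) [NormedAddCommGroup X] [NormedSpace ℝ X] : Set (Set X) :=
  {C | C.Nonempty ∧ Convex ℝ C ∧ IsCompact ((toWeakSpace ℝ X) '' C)}

/-- The family of the convex hulls of at most four points (at least one). -/
def tetrahedra (X : Type u) [NormedAddCommGroup X] [NormedSpace ℝ X] : Set (Set X) :=
  {C | ∃ s : Set X, s.Finite ∧ s.Nonempty ∧ s.ncard ≤ 4 ∧ C = convexHull ℝ s}

open Pool.Agent.Results.MP_de1370_an.CwkFailsSC (ccMS ccMeasure ccMeasure_prob ccMeasure_complete)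

lemma tetra_cwk (X : Type u) [NormedAddCommGroup X] [NormedSpace ℝ X] :
    tetrahedra X ⊆ cwk X := by
  rintro _ ⟨s, hs, hs0, -, rfl⟩
  refine ⟨hs0.convexHull, convex_convexHull _ _, ?_⟩
  exact (hs.isCompact_convexHull ℝ).image (toWeakSpaceCLM ℝ X).continuous

/-- functionals are nonzero at only countably many vectors of a system whose signed sums are
bounded by a sublinear function of the number of terms -/
lemma countable_of_sublinear {X : Type u} [NormedAddCommGroup X] [NormedSpace ℝ X] {Γ : Type}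
    (e : Γ → X) (w : ℕ → ℝ) (hw : Filter.Tendsto (fun n : ℕ => w n / n) Filter.atTop (𝓝 0))
    (he : ∀ (S : Finset Γ) (s : Γ → ℝ), (∀ i, |s i| = 1) → ‖∑ i ∈ S, s i • e i‖ ≤ w S.card)
    (φ : StrongDual ℝ X) : {i | φ (e i) ≠ 0}.Countable := by
  have hfin : ∀ ε : ℝ, 0 < ε → {i | ε ≤ |φ (e i)|}.Finite := by
    intro ε hε
    by_contra hinf
    have hlim := (hw.const_mul ‖φ‖)
    rw [mul_zero] at hlim
    obtain ⟨n, hn1, hn2⟩ := ((hlim.eventually (gt_mem_nhds hε)).and
      (Filter.eventually_gt_atTop 0)).exists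
    obtain ⟨S, hS1, hS2⟩ := (show {i | ε ≤ |φ (e i)|}.Infinite from hinf).exists_subset_card_eq n
    set s : Γ → ℝ := fun i => if 0 ≤ φ (e i) then 1 else -1 with hs
    have hs1 : ∀ i, |s i| = 1 := by
      intro i
      by_cases h : 0 ≤ φ (e i) <;> simp [hs, h]
    have hs2 : ∀ i, s i * φ (e i) = |φ (e i)| := by
      intro i
      by_cases h : 0 ≤ φ (e i)
      · simp [hs, h, abs_of_nonneg h]
      · simp [hs, h, abs_of_neg (not_le.1 h)]
    have h1 := he S s hs1
    have h2 : φ (∑ i ∈ S, s i • e i) = ∑ i ∈ S, |φ (e i)| := by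
      rw [map_sum]
      refine Finset.sum_congr rfl fun i _ => ?_
      rw [map_smul, smul_eq_mul, hs2]
    have h3 : (n : ℝ) * ε ≤ ∑ i ∈ S, |φ (e i)| := by
      rw [← hS2, ← nsmul_eq_mul]
      exact Finset.card_nsmul_le_sum _ _ _ fun i hi => hS1 hi
    have h4 : φ (∑ i ∈ S, s i • e i) ≤ ‖φ‖ * w n := by
      refine (le_abs_self _).trans ((φ.le_opNorm _).trans ?_)
      rw [hS2] at h1
      exact mul_le_mul_of_nonneg_left h1 (norm_nonneg _)
    have hn0 : (0 : ℝ) < n := by exact_mod_cast hn2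
    have h5 : ‖φ‖ * w n < ε * n := by
      have : ‖φ‖ * (w n / n) < ε := hn1
      rw [← mul_div_assoc, div_lt_iff₀ hn0] at this
      exact this
    linarith
  have : {i | φ (e i) ≠ 0} = ⋃ n : ℕ, {i | 1 / ((n : ℝ) + 1) ≤ |φ (e i)|} := by
    ext i
    simp only [mem_ofPred_eq, mem_iUnion]
    constructor
    · intro h
      obtain ⟨n, hn⟩ := exists_nat_one_div_lt (abs_pos.2 h)
      exact ⟨n, hn.le⟩
    · rintro ⟨n, hn⟩ h
      rw [h, abs_zero] at hn
      have : (0 : ℝ) < 1 / ((n : ℝ) + 1) := by positivity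
      linarith
  rw [this]
  exact countable_iUnion fun n => (hfin _ (by positivity)).countable

lemma countable_support {H : Type u} {Γ : Type} [NormedAddCommGroup H] [InnerProductSpace ℝ H]
    [CompleteSpace H] (e : Γ → H) (he : Orthonormal ℝ e) (φ : StrongDual ℝ H) :
    {i | φ (e i) ≠ 0}.Countable := by
  set y := (InnerProductSpace.toDual ℝ H).symm φ with hy
  have h1 : ∀ x, φ x = inner ℝ y x := by
    intro x
    rw [hy, InnerProductSpace.toDual_symm_apply]
  have h2 := (he.inner_products_summable y).countable_support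
  apply h2.mono
  intro i hi
  rw [Function.mem_support]
  intro h3
  apply hi
  rw [h1, real_inner_comm]
  simpa using h3

/-- well-orders of the types `ω₁`, `ω₂`, `ω₃` -/
abbrev W (n : ℕ) : Type := (Cardinal.aleph.{0} n).ord.ToType

lemma countable_Iio (t : W 1) : (Set.Iio t).Countable := by
  rw [← le_aleph0_iff_set_countable]
  have heq : Cardinal.aleph.{0} ((1 : ℕ) : Ordinal) = Order.succ ℵ₀ := by
    rw [succ_aleph0, Nat.cast_one]
  exact Order.lt_succ_iff.mp (lt_of_lt_of_eq (mk_Iio_toType_ord_lt t) heq)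

lemma aleph0_lt_W : ℵ₀ < #(W 1) := by
  rw [mk_ord_toType, Nat.cast_one]; exact aleph0_lt_aleph_one

lemma W_lt (m n : ℕ) (h : m < n) : #(W m) < #(W n) := by
  rw [mk_ord_toType, mk_ord_toType]
  exact aleph_lt_aleph.mpr (by exact_mod_cast h)

instance : Uncountable (W 1) := by
  rw [← aleph0_lt_mk_iff]; exact aleph0_lt_W

theorem fails (X : Type u) [NormedAddCommGroup X] [NormedSpace ℝ X] (Γ : Type)
    (hΓ : Cardinal.aleph 3 ≤ #Γ) (e : Γ → X) (f : Γ → StrongDual ℝ X)
    (hf1 : ∀ i, f i (e i) = 1) (hf2 : ∀ i j, i ≠ j → f i (e j) = 0)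
    (hcs : ∀ φ : StrongDual ℝ X, {i | φ (e i) ≠ 0}.Countable) :
    (∀ 𝒞 : Set (Set X), tetrahedra X ⊆ 𝒞 →
      ¬ @PropertySC (W 1 × Bool) (ccMS (W 1 × Bool)) X _ _ 𝒞) ∧
      ¬ @PropertySC (W 1 × Bool) (ccMS (W 1 × Bool)) X _ _ (cwk X) := by
  classical
  have hall : ∀ 𝒞 : Set (Set X), tetrahedra X ⊆ 𝒞 →
      ¬ @PropertySC (W 1 × Bool) (ccMS (W 1 × Bool)) X _ _ 𝒞 := by
    rintro 𝒞 h𝒞 ⟨ψ, hψ1, hψ2⟩
    have hAB := W_lt 1 2 (by norm_num)
    have hBC := W_lt 2 3 (by norm_num)
    have hcard : #(W 1 ⊕ W 2 ⊕ W 3) ≤ #Γ := by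
      refine le_trans ?_ hΓ
      rw [mk_sum, mk_sum, lift_id, lift_id, lift_id, lift_id]
      have hC : #(W 3) = aleph 3 := by rw [mk_ord_toType]; norm_num
      rw [← hC]
      have hC0 : ℵ₀ ≤ #(W 3) := (aleph0_lt_W.trans (hAB.trans hBC)).le
      rw [Cardinal.add_eq_right hC0 hBC.le, Cardinal.add_eq_right hC0 (hAB.trans hBC).le]
    obtain ⟨g, hg⟩ := Cardinal.le_def _ _ |>.1 hcard |>.elim fun g => (⟨g, g.injective⟩ :
      ∃ g : W 1 ⊕ W 2 ⊕ W 3 → Γ, Function.Injective g)
    obtain ⟨F, hF1, hF2, hF3⟩ := Pool.Agent.Y175.SC.main_banach aleph0_lt_W hAB hBC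
      (fun i => e (g i)) (fun i => f (g i)) (fun i j => by
        split_ifs with h
        · subst h
          exact hf1 _
        · exact hf2 _ _ fun h' => h (hg h'))
      (fun φ => (hcs φ).preimage_of_injOn hg.injOn) (W 1) countable_Iio ψ
      (fun K hK => hψ1 K (h𝒞 hK))
    exact hF3 (hψ2 F (fun t => h𝒞 (hF1 t)) hF2)
  exact ⟨hall, hall _ (tetra_cwk X)⟩

/-- signed sums of unit vectors of `ℓ^p` -/
lemma lp_sum (p : ℝ≥0∞) [Fact (1 ≤ p)] (hp' : p ≠ ∞) {Γ : Type} [DecidableEq Γ] (S : Finset Γ)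
    (s : Γ → ℝ) (hs : ∀ i, |s i| = 1) :
    ‖∑ i ∈ S, s i • (lp.single p i (1 : ℝ) : lp (fun _ : Γ => ℝ) p)‖ ≤
      (S.card : ℝ) ^ (1 / p.toReal) := by
  have h1 : 1 ≤ p := Fact.out
  have hp0 : 0 < p.toReal := ENNReal.toReal_pos (by
    rintro rfl
    simp at h1) hp'
  have h2 : ∑ i ∈ S, s i • (lp.single p i (1 : ℝ) : lp (fun _ : Γ => ℝ) p) =
      ∑ i ∈ S, lp.single p i (s i) := by
    refine Finset.sum_congr rfl fun i _ => ?_
    rw [← lp.single_smul, smul_eq_mul, mul_one]
  have h3 := lp.norm_sum_single (E := fun _ : Γ => ℝ) hp0 s S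
  rw [h2]
  have h4 : ∑ i ∈ S, ‖s i‖ ^ p.toReal = (S.card : ℝ) := by
    rw [Finset.sum_congr rfl (g := fun _ => (1 : ℝ)) (fun i _ => by
      rw [Real.norm_eq_abs, hs, Real.one_rpow])]
    simp
  rw [h4] at h3
  rw [← h3, ← Real.rpow_mul (norm_nonneg _), mul_one_div_cancel hp0.ne', Real.rpow_one]

/-- There is a complete probability space over which, in every Banach space `X` with a
biorthogonal system of length at least `ℵ₃` such that every functional is nonzero at only countably
many of its vectors, every family of subsets of `X` which contains the convex hulls of at most four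
points fails property (SC). In particular `cwk(X)` fails it; this applies to every Hilbert space
with an orthonormal family of `ℵ₃` vectors and to `ℓ^p(Γ)` for `1 < p < ∞` and `#Γ ≥ ℵ₃`. -/
theorem result :
    ∃ (Ω : Type) (_ : MeasurableSpace Ω) (μ : Measure Ω) (_ : IsProbabilityMeasure μ)
      (_ : μ.IsComplete),
      (∀ (X : Type u) [NormedAddCommGroup X] [NormedSpace ℝ X] (Γ : Type)
        (_ : Cardinal.aleph 3 ≤ #Γ) (e : Γ → X) (f : Γ → StrongDual ℝ X),
        (∀ i, f i (e i) = 1) → (∀ i j, i ≠ j → f i (e j) = 0) →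
        (∀ φ : StrongDual ℝ X, {i | φ (e i) ≠ 0}.Countable) →
          (∀ 𝒞 : Set (Set X), tetrahedra X ⊆ 𝒞 → ¬ PropertySC Ω 𝒞) ∧
            ¬ PropertySC Ω (cwk X)) ∧
      (∀ (X : Type u) [NormedAddCommGroup X] [InnerProductSpace ℝ X] [CompleteSpace X]
        (Γ : Type) (_ : Cardinal.aleph 3 ≤ #Γ) (e : Γ → X), Orthonormal ℝ e →
          (∀ 𝒞 : Set (Set X), tetrahedra X ⊆ 𝒞 → ¬ PropertySC Ω 𝒞) ∧
            ¬ PropertySC Ω (cwk X)) ∧
      ∀ (p : ℝ≥0∞) [Fact (1 ≤ p)] (Γ : Type), 1 < p → p ≠ ∞ → Cardinal.aleph 3 ≤ #Γ →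
          (∀ 𝒞 : Set (Set (lp (fun _ : Γ => ℝ) p)),
            tetrahedra (lp (fun _ : Γ => ℝ) p) ⊆ 𝒞 → ¬ PropertySC Ω 𝒞) ∧
            ¬ PropertySC Ω (cwk (lp (fun _ : Γ => ℝ) p)) := by
  classical
  refine ⟨W 1 × Bool, ccMS (W 1 × Bool), ccMeasure (W 1 × Bool), ccMeasure_prob _,
    ccMeasure_complete _, fails, ?_, ?_⟩
  · intro X _ _ _ Γ hΓ e he
    refine fails X Γ hΓ e (fun i => innerSL ℝ (e i)) (fun i => ?_) (fun i j hij => ?_) fun φ => ?_
    · rw [innerSL_apply_apply, real_inner_self_eq_norm_sq, he.1 i]; norm_num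
    · exact he.2 hij
    · exact countable_support e he φ
  · intro p _ Γ hp hp' hΓ
    have hp0 : 0 < p.toReal := ENNReal.toReal_pos (by
      rintro rfl
      simp at hp) hp'
    have hp1 : 1 < p.toReal := by
      rw [← ENNReal.toReal_one]
      exact (ENNReal.toReal_lt_toReal ENNReal.one_ne_top hp').2 hp
    let f : Γ → StrongDual ℝ (lp (fun _ : Γ => ℝ) p) := fun i =>
      LinearMap.mkContinuous
        { toFun := fun z => z i
          map_add' := fun y z => by rw [lp.coeFn_add, Pi.add_apply]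
          map_smul' := fun c z => by rw [lp.coeFn_smul, Pi.smul_apply]; rfl } 1
        (fun z => by
          rw [one_mul]
          exact lp.norm_apply_le_norm (by
            rintro rfl
            simp at hp) z i)
    have hf : ∀ i (z : lp (fun _ : Γ => ℝ) p), f i z = z i := fun i z => rfl
    refine fails _ Γ hΓ (fun i => lp.single p i (1 : ℝ)) f (fun i => ?_) (fun i j hij => ?_)
      fun φ => ?_
    · rw [hf, lp.single_apply_self]
    · rw [hf, lp.single_apply_ne _ _ _ hij]
    · refine countable_of_sublinear _ (fun n : ℕ => (n : ℝ) ^ (1 / p.toReal)) ?_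
        (fun S s hs => lp_sum p hp' S s hs) φ
      have h1 : Filter.Tendsto (fun n : ℕ => (n : ℝ) ^ (-(1 - 1 / p.toReal))) Filter.atTop
          (𝓝 0) := by
        refine (tendsto_rpow_neg_atTop ?_).comp tendsto_natCast_atTop_atTop
        rw [sub_pos, div_lt_one hp0]
        exact hp1
      refine h1.congr' ?_
      filter_upwards [Filter.eventually_gt_atTop 0] with n hn
      have hn0 : (0 : ℝ) < n := by exact_mod_cast hn
      rw [neg_sub, Real.rpow_sub hn0, Real.rpow_one]

end Pool.Agent.Results.MP_de1370_an.Tetrahedra
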